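import Pool.Agent.V7H96.GC.Size

set_option autoImplicit false

/-!
# Small-set expansion on graphs of high girth is as hard as on all graphs

Let `SSE(η, δ)` be the promise problem of small-set expansion for regular graphs: one of the sets of
`δ n` vertices has expansion at most `η` (yes), or all of them have expansion at least `1 - η` (no).

For every `g` and `ε > 0` there is a constant `C` such that for every `n` there is **one** graph `H`
with at most `C n ^ C` vertices, without cycles of length at most `g`, and a map `π` from its
vertices to the `n` vertices of the inputs, with the following property. For **every** regular graph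
`G` on `n` vertices the part of `H` over `G` (the edges of `H` which `π` maps to edges of `G`) is a
regular graph which is a yes instance of `SSE(η, δ)` if `G` is one, and a no instance of
`SSE(η + ε, δ)` if `G` is a no instance of `SSE(η, δ)`, for all `η` and all `δ` with `δ n ≥ 1 / ε`.

So small-set expansion reduces to itself on graphs of girth larger than `g`, in polynomial size, by
reductions which only copy entries of the adjacency matrix (the pair `(H, π)` depends on `n`, `g` and
`ε` only). A graph of girth larger than `g` has no subgraph with at most `g` vertices except forests.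
So when a finite number of graphs which are not forests is forbidden, as subgraphs or as induced
subgraphs, the problem keeps its full hardness. On the other hand the problem is trivial for small
`η` as soon as one forest is forbidden as an induced subgraph (`InducedForestsH96`): this is a
dichotomy for all classes of graphs given by finitely many forbidden induced subgraphs.

Proof. Start with the blow-up of the complete graph on `n` vertices in which every vertex is replaced
by `m = n + O(1)` vertices. In every round take a random lift with voltages in an elementary abelian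
`2`-group of polynomial size. A closed walk of length at most `2 g' + 1` stays closed only if it uses
every edge an even number of times, with high probability; so a cycle of the lift of this length
would give a cycle of at most half the length, and the girth grows from more than `g'` to more than
`2 g' + 1`. The moments of the twisted adjacency matrices between two fibres are sums over walks
which use every edge an even number of times, so that the lift is quasirandom between any two fibres.
For the soundness a set of vertices of the lift is projected to a function with values in `[0, 1]` on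
the vertices of `G`, which is rounded to a set: moving mass between two vertices which are not
adjacent does not change the number of inner edges for the worse, so that at the end the vertices
with values strictly between `0` and `1` form a clique of at most `d + 1` vertices.
-/

open Finset
open scoped Classical

namespace Pool.Agent.Results.MP_8d8c46_lc.HighGirthCompanionsH96

section
variable {V : Type} [Fintype V]

/-- The expansion of `S`: the number of edges which leave `S`, divided by `d |S|`. -/
noncomputable def expansion (G : SimpleGraph V) (d : ℕ) (S : Finset V) : ℝ :=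
  ((univ.filter fun p : V × V => p.1 ∈ S ∧ p.2 ∉ S ∧ G.Adj p.1 p.2).card : ℝ) / (d * S.card)

/-- `G` is `d`-regular, `d ≥ 1`, and `δ n` is a positive integer. -/
structure IsInstance (δ : ℝ) (G : SimpleGraph V) (d : ℕ) : Prop where
  regular : ∀ v, (univ.filter fun w => G.Adj v w).card = d
  pos : 1 ≤ d
  size : ∃ k : ℕ, 1 ≤ k ∧ (k : ℝ) = δ * Fintype.card V

/-- Yes instances of `SSE(η, δ)`. -/
def IsYes (η δ : ℝ) (G : SimpleGraph V) (d : ℕ) : Prop :=
  IsInstance δ G d ∧ ∃ S : Finset V, (S.card : ℝ) = δ * Fintype.card V ∧ expansion G d S ≤ η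

/-- No instances of `SSE(η, δ)`. -/
def IsNo (η δ : ℝ) (G : SimpleGraph V) (d : ℕ) : Prop :=
  IsInstance δ G d ∧ ∀ S : Finset V, (S.card : ℝ) = δ * Fintype.card V → 1 - η ≤ expansion G d S

end

/-- The part of `H` over `G`: the edges of `H` whose images under `π` are edges of `G`. -/
def above {V W : Type} (H : SimpleGraph W) (π : W → V) (G : SimpleGraph V) : SimpleGraph W where
  Adj x y := H.Adj x y ∧ G.Adj (π x) (π y)
  symm := ⟨fun _ _ h => ⟨h.1.symm, h.2.symm⟩⟩
  loopless := ⟨fun x h => H.loopless.irrefl x h.1⟩

open Pool.Agent.V7H96.SF (ee nb adj)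
open Pool.Agent.V7H96.GC

lemma cut_eq {V : Type} [Fintype V] {G : SimpleGraph V} {d : ℕ} (reg : ∀ v, (nb G v).card = d)
    (S : Finset V) :
    ((univ.filter fun p : V × V => p.1 ∈ S ∧ p.2 ∉ S ∧ G.Adj p.1 p.2).card : ℝ) =
      d * S.card - ee G S S := by
  have h1 : ((univ.filter fun p : V × V => p.1 ∈ S ∧ p.2 ∉ S ∧ G.Adj p.1 p.2).card : ℝ) =
      ∑ u ∈ S, ∑ v ∈ Sᶜ, adj G u v := by
    rw [card_filter]
    push_cast
    rw [Fintype.sum_prod_type]
    have e1 : ∀ u, (∑ v, if u ∈ S ∧ v ∉ S ∧ G.Adj u v then (1 : ℝ) else 0) =
        if u ∈ S then ∑ v ∈ Sᶜ, adj G u v else 0 := by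
      intro u
      by_cases hu : u ∈ S
      · rw [if_pos hu, ← sum_filter_add_sum_filter_not univ (fun v => v ∈ Sᶜ)]
        have z : (∑ v ∈ univ.filter (fun v => ¬ v ∈ Sᶜ),
            if u ∈ S ∧ v ∉ S ∧ G.Adj u v then (1 : ℝ) else 0) = 0 := by
          refine sum_eq_zero fun v hv => ?_
          have : v ∈ S := by simpa using hv
          simp [this]
        rw [z, add_zero, filter_mem_eq_inter, univ_inter]
        refine sum_congr rfl fun v hv => ?_
        have : v ∉ S := by simpa using hv
        simp [adj, hu, this]
      · rw [if_neg hu]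
        exact sum_eq_zero fun v _ => by simp [hu]
    simp_rw [e1]
    rw [← sum_filter, filter_mem_eq_inter, univ_inter]
  rw [h1]
  have h2 : ∀ u, ∑ v ∈ Sᶜ, adj G u v = d - ∑ v ∈ S, adj G u v := by
    intro u
    have := Pool.Agent.V7H96.SF.sum_adj reg u
    rw [← this, ← sum_compl_add_sum S]
    ring
  simp_rw [h2]
  rw [sum_sub_distrib]
  unfold ee
  simp
  ring

section
variable {V W : Type} [Fintype V] [Fintype W]

lemma inst {H : SimpleGraph W} {π : W → V} {q m : ℕ} {lam : ℝ} (h : UCov H π q m lam)
    (hm : 1 ≤ m) {δ : ℝ} {G : SimpleGraph V} {d : ℕ} (hG : IsInstance δ G d) :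
    IsInstance δ (above H π G) (d * m) := by
  obtain ⟨reg, pos, k, hk1, hk⟩ := hG
  refine ⟨fun x => h.reg_all (G := G) reg x, Nat.mul_pos pos hm, q * k,
    Nat.mul_pos h.qpos hk1, ?_⟩
  rw [h.card_eq]
  push_cast
  rw [hk]; ring

lemma yes_case {H : SimpleGraph W} {π : W → V} {q m : ℕ} {lam : ℝ} (h : UCov H π q m lam)
    (hm : 1 ≤ m) {η δ : ℝ} {G : SimpleGraph V} {d : ℕ} (hG : IsYes η δ G d) :
    IsYes η δ (above H π G) (d * m) := by
  obtain ⟨hI, S, hS, he⟩ := hG
  have hI' := inst h hm hI
  refine ⟨hI', univ.filter fun x => π x ∈ S, ?_, ?_⟩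
  · rw [h.card_preimage, h.card_eq]
    push_cast
    rw [hS]; ring
  · obtain ⟨reg, pos, k, hk1, hk⟩ := hI
    have reg' : ∀ v, (nb G v).card = d := reg
    have hSk : (S.card : ℝ) = k := by rw [hS, hk]
    have hkpos : (0 : ℝ) < k := by exact_mod_cast hk1
    have hdpos : (0 : ℝ) < d := by exact_mod_cast pos
    have hmpos : (0 : ℝ) < m := by exact_mod_cast hm
    have hqpos : (0 : ℝ) < q := by exact_mod_cast h.qpos
    unfold expansion at he ⊢
    rw [cut_eq reg', hSk, div_le_iff₀ (by positivity)] at he
    have h1 := cut_eq (G := above H π G) (d := d * m) (fun x => h.reg_all reg' x)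
      (univ.filter fun x => π x ∈ S)
    rw [h1]
    have h2 : ee (above H π G) (univ.filter fun x => π x ∈ S) (univ.filter fun x => π x ∈ S) =
        q * m * ee G S S := h.ee_preimage G S
    rw [h2, h.card_preimage]
    push_cast
    rw [hSk, div_le_iff₀ (by positivity)]
    have h3 : (0 : ℝ) < q * m := by positivity
    have h4 := mul_le_mul_of_nonneg_left he h3.le
    linarith

lemma no_case {H : SimpleGraph W} {π : W → V} {q m : ℕ} {ε : ℝ} (hε : 0 < ε)
    (h : UCov H π q m (ε / 2 * m))
    (hm : 1 ≤ m) {η δ : ℝ} {G : SimpleGraph V} {d : ℕ} (hδ : 1 ≤ ε * (δ * Fintype.card V))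
    (hG : IsNo η δ G d) :
    IsNo (η + ε) δ (above H π G) (d * m) := by
  obtain ⟨hI, hno⟩ := hG
  have hI' := inst h hm hI
  refine ⟨hI', fun S' hS' => ?_⟩
  obtain ⟨reg, pos, k, hk1, hk⟩ := hI
  have reg' : ∀ v, (nb G v).card = d := reg
  have hkpos : (0 : ℝ) < k := by exact_mod_cast hk1
  have hdpos : (0 : ℝ) < d := by exact_mod_cast pos
  have hd1 : (1 : ℝ) ≤ d := by exact_mod_cast pos
  have hmpos : (0 : ℝ) < m := by exact_mod_cast hm
  have hqpos : (0 : ℝ) < q := by exact_mod_cast h.qpos
  have hcard : S'.card = k * q := by
    rw [h.card_eq] at hS'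
    push_cast at hS'
    have h1 : (S'.card : ℝ) = ((k * q : ℕ) : ℝ) := by
      push_cast
      rw [hS', hk]; ring
    exact_mod_cast h1
  have hno' : ∀ S : Finset V, S.card = k → ee G S S ≤ η * d * k := by
    intro S hS
    have h1 := hno S (by rw [hS, hk])
    unfold expansion at h1
    rw [cut_eq reg', hS, le_div_iff₀ (by positivity)] at h1
    linarith
  have h2 : ee (above H π G) S' S' ≤
      m * q * (η * d * k + ((d : ℝ) + 1) / 4) + ε / 2 * m * d * (k * q) :=
    h.ee_le (by positivity) reg' hno' S' hcard
  unfold expansion
  have h3 := cut_eq (G := above H π G) (d := d * m) (fun x => h.reg_all reg' x) S'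
  rw [h3, hcard]
  push_cast
  rw [le_div_iff₀ (by positivity)]
  rw [← hk] at hδ
  have h4 : ((d : ℝ) + 1) / 4 ≤ ε / 2 * d * k := by nlinarith
  have h5 : (m : ℝ) * q * (η * d * k + ((d : ℝ) + 1) / 4) ≤
      m * q * (η * d * k + ε / 2 * d * k) :=
    mul_le_mul_of_nonneg_left (by linarith) (by positivity)
  nlinarith

end

/-- **Universal companions of high girth for small-set expansion.** -/
theorem result (g : ℕ) (ε : ℝ) (hε : 0 < ε) :
    ∃ C : ℕ, ∀ (V : Type) [Fintype V] [Nonempty V],
      ∃ (W : Type) (_ : Fintype W) (H : SimpleGraph W) (π : W → V) (m : ℕ),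
        Fintype.card W ≤ C * Fintype.card V ^ C ∧
        (∀ (w : W) (p : H.Walk w w), p.IsCycle → g < p.length) ∧
        ∀ (G : SimpleGraph V),
          (∀ {U : Type} [Fintype U] (F : SimpleGraph U), Fintype.card U ≤ g → ¬ F.IsAcyclic →
            ∀ φ : F →g above H π G, ¬ Function.Injective φ) ∧
          ∀ (d : ℕ) (η δ : ℝ), 1 ≤ ε * (δ * Fintype.card V) →
            (IsInstance δ G d → IsInstance δ (above H π G) (d * m)) ∧
            (IsYes η δ G d → IsYes η δ (above H π G) (d * m)) ∧
            (IsNo η δ G d → IsNo (η + ε) δ (above H π G) (d * m)) := by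
  obtain ⟨C, hC⟩ := universal g ε hε
  refine ⟨C, fun V _ _ => ?_⟩
  obtain ⟨W, i1, H, π, q, m, hm, hcov, hno, hcard⟩ := hC V
  have hgirth : ∀ (w : W) (p : H.Walk w w), p.IsCycle → g < p.length :=
    fun w p hp => noShort_cycle hno p hp
  refine ⟨W, i1, H, π, m, hcard, hgirth, fun G => ⟨?_, fun d η δ hδ =>
    ⟨fun h => inst hcov hm h, fun h => yes_case hcov hm h, fun h => no_case hε hcov hm hδ h⟩⟩⟩
  intro U _ F hU hF φ hφ
  unfold SimpleGraph.IsAcyclic at hF
  push Not at hF
  obtain ⟨u, p, hp⟩ := hF
  have hle : above H π G ≤ H := fun x y h => h.1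
  have h1 := (hp.map hφ).mapLe hle
  have h2 := hgirth _ _ h1
  have h3 : p.length ≤ Fintype.card U := by
    have h4 := hp.support_nodup.length_le_card
    rw [List.length_tail, SimpleGraph.Walk.length_support] at h4
    omega
  rw [SimpleGraph.Walk.length_map, SimpleGraph.Walk.length_map] at h2
  omega

end Pool.Agent.Results.MP_8d8c46_lc.HighGirthCompanionsH96
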