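import Pool.Agent.V7H96.SF.Main

set_option autoImplicit false

/-!
# Small-set expansion is decided by the degree in every class of graphs which omits a forest

Let `SSE(η, δ)` be the promise problem of small-set expansion for regular graphs: all sets of `δ n`
vertices have expansion at least `1 - η` (no), or one of them has expansion at most `η` (yes).

1. Let `F` be a forest with `t` vertices and `5 t (t - 1) η < 1`. Then for regular graphs without an
   induced subgraph `F` the degree decides `SSE(η, δ)`, for every `δ`: all yes instances have degree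
   `d ≤ 2 (δ n - 1)` and all no instances have degree `d > 2 (δ n - 1)`. So every reduction which
   shows that small-set expansion is hard has to produce graphs which contain all forests with
   `c / √η` vertices as induced subgraphs, and the conjecture, restricted to claw-free graphs, to
   graphs without an induced path on `100` vertices, or to any hereditary class which does not
   contain all forests, fails in the strongest sense.
2. A no instance with `d ≤ 2 (δ n - 1)` looks locally like a tree: of the `n d ^ (t - 1)`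
   homomorphisms from a tree with `t` vertices all but a fraction `5 (t - 1) (t - 2) η` are induced
   embeddings, and a connected graph with `t` vertices which is not a tree has at most
   `8 η n d ^ (t - 1)` homomorphisms. So the graphs in part 1 need not be free of `F`, it is enough
   that a positive proportion of the homomorphisms is not an induced embedding.

Proof. Let `e(X, Y)` be the number of pairs of adjacent vertices in `X × Y`. If `(a, b)` is a random
pair of vertices, both uniformly distributed, then the mean of `e(N(a), N(b))` is at most `8 η d²` in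
a no instance: otherwise a greedy union of such pairs of neighbourhoods (or a suitable part of one
pair) would be a set of `δ n` vertices with more than `η d δ n` inner edges. In a random homomorphism
from a tree two vertices at distance at least two are random neighbours of such a pair `a`, `b`.
-/

open Finset
open scoped Classical

namespace Pool.Agent.Results.MP_8d8c46_lc.InducedForestsH96

variable {V : Type} [Fintype V]

/-- The expansion of `S`: the number of edges which leave `S`, divided by `d |S|`. -/
noncomputable def expansion (G : SimpleGraph V) (d : ℕ) (S : Finset V) : ℝ :=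
  ((univ.filter fun p : V × V => p.1 ∈ S ∧ p.2 ∉ S ∧ G.Adj p.1 p.2).card : ℝ) / (d * S.card)

/-- `G` is `d`-regular, `d ≥ 1`, and `δ n` is a positive integer. -/
structure IsInstance (δ : ℝ) (G : SimpleGraph V) (d : ℕ) : Prop where
  regular : ∀ v, (univ.filter fun w => G.Adj v w).card = d
  pos : 1 ≤ d
  size : ∃ k : ℕ, 1 ≤ k ∧ (k : ℝ) = δ * Fintype.card V

/-- Yes instances of `SSE(η, δ)`. -/
def IsYes (η δ : ℝ) (G : SimpleGraph V) (d : ℕ) : Prop :=
  IsInstance δ G d ∧ ∃ S : Finset V, (S.card : ℝ) = δ * Fintype.card V ∧ expansion G d S ≤ η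

/-- No instances of `SSE(η, δ)`. -/
def IsNo (η δ : ℝ) (G : SimpleGraph V) (d : ℕ) : Prop :=
  IsInstance δ G d ∧ ∀ S : Finset V, (S.card : ℝ) = δ * Fintype.card V → 1 - η ≤ expansion G d S

open Pool.Agent.V7H96.SF (ee nb adj Hyp)

lemma cut_eq {G : SimpleGraph V} {d : ℕ} (reg : ∀ v, (nb G v).card = d) (S : Finset V) :
    ((univ.filter fun p : V × V => p.1 ∈ S ∧ p.2 ∉ S ∧ G.Adj p.1 p.2).card : ℝ) =
      d * S.card - ee G S S := by
  have h1 : ((univ.filter fun p : V × V => p.1 ∈ S ∧ p.2 ∉ S ∧ G.Adj p.1 p.2).card : ℝ) =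
      ∑ u ∈ S, ∑ v ∈ Sᶜ, adj G u v := by
    rw [card_filter]
    push_cast
    rw [Fintype.sum_prod_type]
    have e1 : ∀ u, (∑ v, if u ∈ S ∧ v ∉ S ∧ G.Adj u v then (1 : ℝ) else 0) =
        if u ∈ S then ∑ v ∈ Sᶜ, adj G u v else 0 := by
      intro u
      by_cases hu : u ∈ S
      · rw [if_pos hu, ← sum_filter_add_sum_filter_not univ (fun v => v ∈ Sᶜ)]
        have z : (∑ v ∈ univ.filter (fun v => ¬ v ∈ Sᶜ),
            if u ∈ S ∧ v ∉ S ∧ G.Adj u v then (1 : ℝ) else 0) = 0 := by
          refine sum_eq_zero fun v hv => ?_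
          have : v ∈ S := by simpa using hv
          simp [this]
        rw [z, add_zero, filter_mem_eq_inter, univ_inter]
        refine sum_congr rfl fun v hv => ?_
        have : v ∉ S := by simpa using hv
        simp [adj, hu, this]
      · rw [if_neg hu]
        exact sum_eq_zero fun v _ => by simp [hu]
    simp_rw [e1]
    rw [← sum_filter, filter_mem_eq_inter, univ_inter]
  rw [h1]
  have h2 : ∀ u, ∑ v ∈ Sᶜ, adj G u v = d - ∑ v ∈ S, adj G u v := by
    intro u
    have := Pool.Agent.V7H96.SF.sum_adj reg u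
    rw [← this, ← sum_compl_add_sum S]
    ring
  simp_rw [h2]
  rw [sum_sub_distrib]
  unfold ee
  simp
  ring

lemma ee_le_pairs (G : SimpleGraph V) (S : Finset V) : ee G S S ≤ S.card * (S.card - 1) := by
  unfold ee
  have : ∀ u ∈ S, ∑ v ∈ S, adj G u v ≤ (S.card : ℝ) - 1 := by
    intro u hu
    rw [← add_sum_erase S _ hu, Pool.Agent.V7H96.SF.adj_self, zero_add]
    have h1 := sum_le_sum (s := S.erase u) (f := fun v => adj G u v) (g := fun _ => (1 : ℝ))
      (fun v _ => Pool.Agent.V7H96.SF.adj_le_one G u v)
    rw [sum_const, nsmul_eq_mul, mul_one, card_erase_of_mem hu,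
      Nat.cast_sub (card_pos.2 ⟨u, hu⟩)] at h1
    simpa using h1
  calc ∑ u ∈ S, ∑ v ∈ S, adj G u v ≤ ∑ _u ∈ S, ((S.card : ℝ) - 1) := sum_le_sum this
    _ = S.card * (S.card - 1) := by rw [sum_const, nsmul_eq_mul]

lemma hyp_of_no {η δ : ℝ} (hδ : δ ≤ 1) {G : SimpleGraph V} {d : ℕ} (h : IsNo η δ G d)
    (hd : (d : ℝ) ≤ 2 * (δ * Fintype.card V - 1)) :
    ∃ k : ℕ, (k : ℝ) = δ * Fintype.card V ∧ Hyp G d k η := by
  obtain ⟨⟨reg, pos, k, hk1, hk⟩, hno⟩ := h
  have reg' : ∀ v, (nb G v).card = d := reg
  refine ⟨k, hk, reg', pos, ?_, ?_, fun S hS => ?_⟩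
  · rw [← hk] at hd
    have : (d : ℝ) + 2 ≤ 2 * k := by linarith
    have : d + 2 ≤ 2 * k := by exact_mod_cast this
    omega
  · have : (k : ℝ) ≤ Fintype.card V := by
      rw [hk]
      have : (0 : ℝ) ≤ Fintype.card V := by positivity
      nlinarith
    exact_mod_cast this
  · have h1 := hno S (by rw [hS, hk])
    unfold expansion at h1
    rw [cut_eq reg', hS] at h1
    have hpos : (0 : ℝ) < d * k := by
      have : (0 : ℝ) < d := by exact_mod_cast pos
      have : (0 : ℝ) < k := by exact_mod_cast hk1
      positivity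
    rw [le_div_iff₀ hpos] at h1
    linarith

/-- **Small-set expansion in classes of graphs which omit a forest.** -/
theorem result :
    (∀ {W : Type} [Fintype W] (F : SimpleGraph W), F.IsAcyclic →
      ∀ η δ : ℝ, η < 1 / 2 → 5 * (Fintype.card W * (Fintype.card W - 1)) * η < 1 → δ ≤ 1 →
      ∀ {V : Type} [Fintype V] (G : SimpleGraph V) (d : ℕ), IsEmpty (F ↪g G) →
        (IsYes η δ G d → (d : ℝ) ≤ 2 * (δ * Fintype.card V - 1)) ∧
        (IsNo η δ G d → 2 * (δ * Fintype.card V - 1) < (d : ℝ))) ∧
    (∀ η δ : ℝ, δ ≤ 1 → ∀ {V : Type} [Fintype V] (G : SimpleGraph V) (d : ℕ),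
      IsNo η δ G d → (d : ℝ) ≤ 2 * (δ * Fintype.card V - 1) →
      (∀ {W : Type} [Fintype W] (T : SimpleGraph W), T.IsTree →
        (Nat.card (T →g G) : ℝ) = Fintype.card V * (d : ℝ) ^ (Fintype.card W - 1) ∧
        (1 - 5 * η * ((Fintype.card W - 1) * (Fintype.card W - 2))) *
          (Fintype.card V * (d : ℝ) ^ (Fintype.card W - 1)) ≤ (Nat.card (T ↪g G) : ℝ)) ∧
      (∀ {W : Type} [Fintype W] (H : SimpleGraph W), H.Connected → ¬ H.IsTree →
        (Nat.card (H →g G) : ℝ) ≤
          8 * η * (Fintype.card V * (d : ℝ) ^ (Fintype.card W - 1)))) := by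
  refine ⟨?_, ?_⟩
  · intro W _ F hF η δ hη hη' hδ V _ G d hE
    refine ⟨?_, ?_⟩
    · rintro ⟨⟨reg, pos, k, hk1, hk⟩, S, hS, he⟩
      have reg' : ∀ v, (nb G v).card = d := reg
      have hSk : (S.card : ℝ) = k := by rw [hS, hk]
      have hpos : (0 : ℝ) < k := by exact_mod_cast hk1
      have hdpos : (0 : ℝ) < d := by exact_mod_cast pos
      unfold expansion at he
      rw [cut_eq reg', hSk, div_le_iff₀ (by positivity)] at he
      have h2 := ee_le_pairs G S
      rw [hSk] at h2
      have h3 : (1 - η) * d * k ≤ (k - 1) * k := by nlinarith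
      have h4 := le_of_mul_le_mul_right h3 hpos
      rw [← hk]
      nlinarith
    · intro hno
      by_contra hcon
      push Not at hcon
      obtain ⟨k, hk, hyp⟩ := hyp_of_no hδ hno hcon
      obtain ⟨φ⟩ := Pool.Agent.V7H96.SF.forest_emb hF hyp hη'
      exact hE.false φ
  · intro η δ hδ V _ G d hno hd
    obtain ⟨k, hk, hyp⟩ := hyp_of_no hδ hno hd
    refine ⟨?_, ?_⟩
    · intro W _ T hT
      obtain ⟨S, e, he⟩ := Pool.Agent.V7H96.SF.gt_of_tree _ W T hT rfl
      exact ⟨Pool.Agent.V7H96.SF.card_hom_tree S e he hyp.dpos hyp.reg hyp.cardpos,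
        Pool.Agent.V7H96.SF.card_emb_tree S e he hyp⟩
    · intro W _ H hH hnt
      exact Pool.Agent.V7H96.SF.card_hom_cyclic hH hnt hyp

end Pool.Agent.Results.MP_8d8c46_lc.InducedForestsH96
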