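import Pool.Agent.V7H89.SX.Fn

set_option autoImplicit false

/-!
# Small-set expansion needs `c √n` bits of memory in the streaming model

Let `SSE(η, δ)` be the promise problem of small-set expansion: in a `d`-regular graph with `n`
vertices, is there a set of `δ n` vertices with expansion at most `η` (yes), or do all sets of `δ n`
vertices have expansion at least `1 - η` (no)? For all `η < 1/2`, all `δ = 1/q ≤ η / 16` and all
degrees `d ≥ 4 q (2 q + 1) / η` we show: if the edges are distributed among `d²` players who speak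
one after the other, each of them sending `m` bits to the next one, and if the last message tells yes
instances from no instances with an advantage `γ` over guessing, then `m ≥ c √n`. The players may
have unbounded computing power and common random bits, and may know `n` and `d`. In particular every
one-pass streaming algorithm for `SSE(η, δ)`, with random bits and unbounded computing power, needs
`c √n` bits of memory.

Proof. The vertices are triples `(a, i, g)` with a class `a`, a point `i ≤ N` and a label
`g ∈ ℤ/q`, with `d` classes on the left and `d` on the right. The player `(a, b)` has a matching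
between the points of class `a` and the points of class `b`, and for each pair of it a difference;
his edges join `(a, i, g)` with `(b, j, g + w)`. If the differences are uniform, then no set of `n/q`
vertices has many inner edges. If there are hidden labels `X` and most of the differences are those of
the labels, the vertices `(a, i, X_a(i))` are a set of `n/q` vertices which does not expand. The
players cannot tell the two cases apart: the second level of the Fourier transform of a message of
`m` bits is at most `m² + (log N)²` (a consequence of subadditivity of entropy), so along a random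
matching the message gives at most `(m² + (log N)²) / N` bits of information on the differences.
-/

open Finset
open scoped Classical

namespace Pool.Agent.Results.MP_8d8c46_lc.StreamingH89

section defs

variable {V : Type}

/-- The expansion of `S`: the number of edges which leave `S`, divided by `d |S|`. -/
noncomputable def expansion [Fintype V] (G : SimpleGraph V) (d : ℕ) (S : Finset V) : ℝ :=
  ((univ.filter fun p : V × V => p.1 ∈ S ∧ p.2 ∉ S ∧ G.Adj p.1 p.2).card : ℝ) / (d * S.card)

/-- `G` is `d`-regular, `d ≥ 1`, and `δ n` is a positive integer. -/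
structure IsInstance [Fintype V] (δ : ℝ) (G : SimpleGraph V) (d : ℕ) : Prop where
  regular : ∀ v, (univ.filter fun w => G.Adj v w).card = d
  pos : 1 ≤ d
  size : ∃ s : ℕ, 1 ≤ s ∧ (s : ℝ) = δ * Fintype.card V

/-- Yes instances of `SSE(η, δ)`. -/
def IsYes [Fintype V] (η δ : ℝ) (G : SimpleGraph V) (d : ℕ) : Prop :=
  IsInstance δ G d ∧ ∃ S : Finset V, (S.card : ℝ) = δ * Fintype.card V ∧ expansion G d S ≤ η

/-- No instances of `SSE(η, δ)`. -/
def IsNo [Fintype V] (η δ : ℝ) (G : SimpleGraph V) (d : ℕ) : Prop :=
  IsInstance δ G d ∧ ∀ S : Finset V, (S.card : ℝ) = δ * Fintype.card V → 1 - η ≤ expansion G d S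

/-- The sets `E 0, …, E (K-1)` are a partition of the edges of `G` into `K` parts of equal size. -/
structure Splits (G : SimpleGraph V) {K : ℕ} (E : Fin K → Finset (Sym2 V)) : Prop where
  disjoint : ∀ i j, i ≠ j → Disjoint (E i) (E j)
  union : ∀ z, z ∈ G.edgeSet ↔ ∃ i, z ∈ E i
  size : ∀ i j, (E i).card = (E j).card

/-- A one-way protocol for `K` players on the vertex set `V`, with messages in `M` and common random
bits in `Ω`: player `i` computes his message from the random bits, the message before and his set of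
edges; the last message decides. -/
structure Protocol (V : Type) (K : ℕ) (M Ω : Type) where
  start : Ω → M
  send : Ω → Fin K → M → Finset (Sym2 V) → M
  accept : Ω → M → Prop

/-- The last message. -/
def Protocol.last {K : ℕ} {M Ω : Type} (A : Protocol V K M Ω) (ω : Ω)
    (E : Fin K → Finset (Sym2 V)) : M :=
  (List.finRange K).foldl (fun s i => A.send ω i s (E i)) (A.start ω)

/-- The probability that the input is accepted, where `pr` is the distribution of the random bits. -/
noncomputable def Protocol.prob {K : ℕ} {M Ω : Type} [Fintype Ω] (A : Protocol V K M Ω)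
    (pr : Ω → ℝ) (E : Fin K → Finset (Sym2 V)) : ℝ :=
  ∑ ω, pr ω * (if A.accept ω (A.last ω E) then 1 else 0)

/-- The protocol separates the yes instances of `SSE(η, δ)` of degree `d` from the no instances: each
yes instance has a probability of acceptance at least `γ` larger than each no instance. -/
def Protocol.Separates [Fintype V] {K : ℕ} {M Ω : Type} [Fintype Ω] (A : Protocol V K M Ω)
    (pr : Ω → ℝ) (η δ : ℝ) (d : ℕ) (γ : ℝ) : Prop :=
  ∀ (G G' : SimpleGraph V) (E E' : Fin K → Finset (Sym2 V)), Splits G E → Splits G' E' →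
    IsYes η δ G d → IsNo η δ G' d → A.prob pr E' + γ ≤ A.prob pr E

/-- A one-pass streaming algorithm with memory `M` and random bits `Ω`: the new content of the memory
depends on the random bits, the number of edges read before, the memory and the next edge. -/
structure Streaming (V M Ω : Type) where
  start : Ω → M
  step : Ω → ℕ → M → Sym2 V → M
  accept : Ω → M → Prop

/-- The content of the memory at the end of the stream. -/
def Streaming.last {M Ω : Type} (A : Streaming V M Ω) (ω : Ω) (l : List (Sym2 V)) : M :=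
  (l.foldl (fun s z => (s.1 + 1, A.step ω s.1 s.2 z)) (0, A.start ω)).2

/-- The probability that the stream is accepted. -/
noncomputable def Streaming.prob {M Ω : Type} [Fintype Ω] (A : Streaming V M Ω)
    (pr : Ω → ℝ) (l : List (Sym2 V)) : ℝ :=
  ∑ ω, pr ω * (if A.accept ω (A.last ω l) then 1 else 0)

/-- `l` is a list of all the edges of `G`, each of them once. -/
def IsStream (G : SimpleGraph V) (l : List (Sym2 V)) : Prop :=
  l.Nodup ∧ ∀ z, z ∈ l ↔ z ∈ G.edgeSet

/-- The algorithm separates the yes instances of `SSE(η, δ)` of degree `d` from the no instances,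
for all orders of the edges. -/
def Streaming.Separates [Fintype V] {M Ω : Type} [Fintype Ω] (A : Streaming V M Ω)
    (pr : Ω → ℝ) (η δ : ℝ) (d : ℕ) (γ : ℝ) : Prop :=
  ∀ (G G' : SimpleGraph V) (l l' : List (Sym2 V)), IsStream G l → IsStream G' l' →
    IsYes η δ G d → IsNo η δ G' d → A.prob pr l' + γ ≤ A.prob pr l

end defs

open Pool.Agent.V7H89.SX (ev ev_congr ev_sub ev_sum ev_mul ev_const ev_mono ev_nonneg W Inp Gr Ed inn
  plant lf rf PS)

section red

variable {V : Type} {M Ω : Type}

/-- run from a given time -/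
def go (A : Streaming V M Ω) (ω : Ω) (t : ℕ) (s : M) (l : List (Sym2 V)) : ℕ × M :=
  l.foldl (fun s z => (s.1 + 1, A.step ω s.1 s.2 z)) (t, s)

lemma go_fst (A : Streaming V M Ω) (ω : Ω) (t : ℕ) (s : M) (l : List (Sym2 V)) :
    (go A ω t s l).1 = t + l.length := by
  unfold go
  induction l generalizing t s with
  | nil => simp
  | cons a l ih =>
    rw [List.foldl_cons, ih, List.length_cons]
    omega

lemma go_append (A : Streaming V M Ω) (ω : Ω) (t : ℕ) (s : M) (l l' : List (Sym2 V)) :
    go A ω t s (l ++ l') = go A ω (t + l.length) (go A ω t s l).2 l' := by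
  have h := go_fst A ω t s l
  unfold go at h ⊢
  rw [List.foldl_append]
  congr 1
  exact Prod.ext h rfl

/-- the protocol of a streaming algorithm -/
noncomputable def toProtocol (A : Streaming V M Ω) (K : ℕ) : Protocol V K M Ω where
  start := A.start
  send := fun ω i s E => (go A ω (i * E.card) s E.toList).2
  accept := A.accept

/-- the stream of a partition -/
noncomputable def stream {K : ℕ} (E : Fin K → Finset (Sym2 V)) : List (Sym2 V) :=
  (List.finRange K).flatMap fun i => (E i).toList

lemma last_toProtocol (A : Streaming V M Ω) {K : ℕ} (ω : Ω) (E : Fin K → Finset (Sym2 V))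
    (hE : ∀ i j, (E i).card = (E j).card) :
    (toProtocol A K).last ω E = A.last ω (stream E) := by
  rcases Nat.eq_zero_or_pos K with h0 | h0
  · subst h0
    rfl
  set s := (E ⟨0, h0⟩).card with hs
  have key : ∀ j, j ≤ K →
      ((List.finRange K).take j).foldl (fun s i => (toProtocol A K).send ω i s (E i)) (A.start ω) =
        (go A ω 0 (A.start ω) (((List.finRange K).take j).flatMap fun i => (E i).toList)).2 ∧
      (((List.finRange K).take j).flatMap fun i => (E i).toList).length = j * s := by
    intro j
    induction j with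
    | zero =>
      intro _
      simp [go]
    | succ j ih =>
      intro hj
      obtain ⟨ih1, ih2⟩ := ih (by omega)
      have ht : (List.finRange K).take (j + 1) = (List.finRange K).take j ++ [⟨j, by omega⟩] := by
        rw [List.take_succ_eq_append_getElem (by rw [List.length_finRange]; omega)]
        simp
      rw [ht, List.foldl_append, List.flatMap_append, go_append, ih2, ih1]
      constructor
      · simp only [List.foldl_cons, List.foldl_nil, List.flatMap_cons, List.flatMap_nil,
          List.append_nil]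
        change (go A ω (j * (E ⟨j, _⟩).card) _ _).2 = _
        rw [hE ⟨j, by omega⟩ ⟨0, h0⟩, ← hs, zero_add]
      · rw [List.length_append, ih2]
        simp only [List.flatMap_cons, List.flatMap_nil, List.append_nil, Finset.length_toList]
        rw [hE ⟨j, by omega⟩ ⟨0, h0⟩, ← hs]
        ring
  have h1 := (key K le_rfl).1
  rw [List.take_of_length_le (by rw [List.length_finRange])] at h1
  exact h1

lemma isStream_stream {G : SimpleGraph V} {K : ℕ} {E : Fin K → Finset (Sym2 V)} (h : Splits G E) :
    IsStream G (stream E) := by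
  constructor
  · unfold stream
    rw [List.nodup_flatMap]
    refine ⟨fun i _ => Finset.nodup_toList _, ?_⟩
    refine (List.nodup_finRange K).imp ?_
    intro i j hij
    have := h.disjoint i j hij
    rw [Function.onFun, List.disjoint_left]
    intro z hz hz'
    rw [Finset.mem_toList] at hz hz'
    exact Finset.disjoint_left.1 this hz hz'
  · intro z
    unfold stream
    rw [h.union, List.mem_flatMap]
    simp

lemma separates_toProtocol [Fintype V] [Fintype Ω] (A : Streaming V M Ω) (K : ℕ) (pr : Ω → ℝ)
    (η δ : ℝ) (d : ℕ) (γ : ℝ) (h : A.Separates pr η δ d γ) :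
    (toProtocol A K).Separates pr η δ d γ := by
  intro G G' E E' hE hE' hy hn
  have e1 : ∀ E : Fin K → Finset (Sym2 V), (∀ i j, (E i).card = (E j).card) →
      (toProtocol A K).prob pr E = A.prob pr (stream E) := by
    intro E hE
    unfold Protocol.prob Streaming.prob
    refine sum_congr rfl fun ω _ => ?_
    rw [last_toProtocol A ω E hE]
    rfl
  rw [e1 E hE.size, e1 E' hE'.size]
  exact h G G' _ _ (isStream_stream hE) (isStream_stream hE') hy hn

end red

section main

set_option linter.unusedSectionVars false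

variable {V : Type} [Fintype V] {k N q : ℕ} [NeZero q] {M Ω : Type}

/-- the parts of the players -/
noncomputable def parts (e : W k N (ZMod q) ≃ V) (ρ : Fin k × Fin k → Inp N (ZMod q)) :
    Fin (k * k) → Finset (Sym2 V) := fun i => Ed e ρ (finProdFinEquiv.symm i)

lemma splits_parts (e : W k N (ZMod q) ≃ V) (ρ : Fin k × Fin k → Inp N (ZMod q)) :
    Splits (Gr e ρ) (parts e ρ) := by
  refine ⟨fun i j hij => ?_, fun z => ?_, fun i j => ?_⟩
  · exact Pool.Agent.V7H89.SX.Ed_disjoint e ρ fun h => hij (finProdFinEquiv.symm.injective h)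
  · rw [Pool.Agent.V7H89.SX.Ed_union]
    constructor
    · rintro ⟨p, hp⟩
      exact ⟨finProdFinEquiv p, by unfold parts; rw [Equiv.symm_apply_apply]; exact hp⟩
    · rintro ⟨i, hi⟩
      exact ⟨_, hi⟩
  · unfold parts
    rw [Pool.Agent.V7H89.SX.Ed_card, Pool.Agent.V7H89.SX.Ed_card]

/-- messages as functions of the inputs -/
noncomputable def enc (e : W k N (ZMod q) ≃ V) (A : Protocol V (k * k) M Ω) (ω : Ω)
    (p : Fin k × Fin k) (s : M) (z : Inp N (ZMod q)) : M :=
  A.send ω (finProdFinEquiv p) s (Ed e (fun _ => z) p)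

/-- the players in their order -/
def order (k : ℕ) : List (Fin k × Fin k) := (List.finRange (k * k)).map finProdFinEquiv.symm

lemma last_eq (e : W k N (ZMod q) ≃ V) (A : Protocol V (k * k) M Ω) (ω : Ω)
    (ρ : Fin k × Fin k → Inp N (ZMod q)) :
    A.last ω (parts e ρ) = (order k).foldl (fun s p => enc e A ω p s (ρ p)) (A.start ω) := by
  unfold order Protocol.last
  rw [List.foldl_map]
  congr 1
  funext s i
  unfold enc parts
  rw [Equiv.apply_symm_apply]
  rfl

lemma card_V (e : W k N (ZMod q) ≃ V) : (Fintype.card V : ℝ) = 2 * k * q * N := by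
  rw [← Fintype.card_congr e]
  simp only [Fintype.card_sum, Fintype.card_prod, Fintype.card_fin, ZMod.card]
  push_cast
  ring

lemma instance_Gr (e : W k N (ZMod q) ≃ V) (hk : 1 ≤ k) (hN : 0 < N)
    (ρ : Fin k × Fin k → Inp N (ZMod q)) : IsInstance (1 / q) (Gr e ρ) k := by
  have hq : (q : ℝ) ≠ 0 := by exact_mod_cast NeZero.ne q
  refine ⟨fun v => ?_, hk, 2 * (k * N), ?_, ?_⟩
  · convert Pool.Agent.V7H89.SX.Gr_regular e ρ v
  · have := Nat.mul_pos hk hN
    omega
  · rw [card_V e]
    push_cast
    field_simp

lemma expansion_eq (e : W k N (ZMod q) ≃ V) (ρ : Fin k × Fin k → Inp N (ZMod q)) (S : Finset V) :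
    expansion (Gr e ρ) k S = (k * S.card - 2 * inn e ρ S) / (k * S.card) := by
  unfold expansion
  rw [← Pool.Agent.V7H89.SX.cut e ρ S]

lemma card_of_eq (e : W k N (ZMod q) ≃ V) {S : Finset V} :
    (S.card : ℝ) = 1 / q * Fintype.card V ↔ S.card = 2 * (k * N) := by
  have hq : (q : ℝ) ≠ 0 := by exact_mod_cast NeZero.ne q
  rw [card_V e]
  have : 1 / (q : ℝ) * (2 * k * q * N) = ((2 * (k * N) : ℕ) : ℝ) := by
    push_cast
    field_simp
  rw [this]
  exact Nat.cast_inj

lemma yes_plant (e : W k N (ZMod q) ≃ V) (hk : 1 ≤ k) (hN : 0 < N) (η : ℝ) (T : ℕ) (hT : T ≤ N)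
    (hη : (N : ℝ) - T ≤ η * N) (Z : Fin k ⊕ Fin k → Fin N → ZMod q)
    (ρ : Fin k × Fin k → Inp N (ZMod q)) : IsYes η (1 / q) (Gr e (plant T lf rf Z ρ)) k := by
  have hkr : (0 : ℝ) < k := by exact_mod_cast hk
  have hNr : (0 : ℝ) < N := by exact_mod_cast hN
  refine ⟨instance_Gr e hk hN _, PS e Z, ?_, ?_⟩
  · rw [card_of_eq e]
    exact Pool.Agent.V7H89.SX.PS_card e Z
  · rw [expansion_eq, Pool.Agent.V7H89.SX.PS_card e Z]
    have h := Pool.Agent.V7H89.SX.PS_inn e Z T hT ρ
    push_cast
    rw [div_le_iff₀ (by positivity)]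
    nlinarith [mul_le_mul_of_nonneg_left hη (sq_nonneg (k : ℝ))]

lemma no_unif (e : W k N (ZMod q) ≃ V) (hk : 1 ≤ k) (hN : 0 < N) (η : ℝ)
    (ρ : Fin k × Fin k → Inp N (ZMod q))
    (h : ¬ ∃ S : Finset V, S.card = 2 * (k * N) ∧ η * k ^ 2 * N < inn e ρ S) :
    IsNo η (1 / q) (Gr e ρ) k := by
  have hkr : (0 : ℝ) < k := by exact_mod_cast hk
  have hNr : (0 : ℝ) < N := by exact_mod_cast hN
  refine ⟨instance_Gr e hk hN _, fun S hS => ?_⟩
  rw [card_of_eq e] at hS
  have h1 : inn e ρ S ≤ η * k ^ 2 * N := by
    by_contra h2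
    exact h ⟨S, hS, not_le.1 h2⟩
  rw [expansion_eq, hS]
  push_cast
  rw [le_div_iff₀ (by positivity)]
  nlinarith

lemma order_nodup (k : ℕ) : (order k).Nodup :=
  (List.nodup_finRange _).map finProdFinEquiv.symm.injective

lemma order_length (k : ℕ) : (order k).length = k * k := by
  unfold order
  rw [List.length_map, List.length_finRange]

theorem core [Fintype M] [Fintype Ω] (e : W k N (ZMod q) ≃ V) (hk : 1 ≤ k) (hN : 0 < N) (η : ℝ)
    (T : ℕ) (hT : T < N) (hη : (N : ℝ) - T ≤ η * N) (ε γ β : ℝ) (hε : 0 ≤ ε) (hγ : 0 ≤ γ)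
    (hb : 4 * (T * ((q : ℝ) ^ 2 * Pool.Agent.V7H89.SX.Bc N q (Real.log (Fintype.card M)) /
        ((N : ℝ) - T) ^ 2)) ≤ ε ^ 2)
    (hbad : ev (fun ρ : Fin k × Fin k → Inp N (ZMod q) =>
      if ∃ S : Finset V, S.card = 2 * (k * N) ∧ η * k ^ 2 * N < inn e ρ S then (1 : ℝ) else 0) ≤ β)
    (pr : Ω → ℝ) (pr0 : ∀ ω, 0 ≤ pr ω) (pr1 : ∑ ω, pr ω = 1)
    (A : Protocol V (k * k) M Ω) (hA : A.Separates pr η (1 / q) k γ) :
    γ ≤ k * k * ε + (1 + γ) * β := by
  set Y := ev (fun Z : Fin k ⊕ Fin k → Fin N → ZMod q => ev (fun ρ : Fin k × Fin k → Inp N (ZMod q) =>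
    A.prob pr (parts e (plant T lf rf Z ρ)))) with hY
  set U := ev (fun ρ : Fin k × Fin k → Inp N (ZMod q) => A.prob pr (parts e ρ)) with hU
  have prob0 : ∀ E, 0 ≤ A.prob pr E := fun E => sum_nonneg fun ω _ =>
    mul_nonneg (pr0 ω) (by split_ifs <;> norm_num)
  have prob1 : ∀ E, A.prob pr E ≤ 1 := fun E => by
    rw [← pr1]
    refine sum_le_sum fun ω _ => mul_le_of_le_one_right (pr0 ω) ?_
    split_ifs <;> norm_num
  have Y0 : 0 ≤ Y := ev_nonneg fun Z => ev_nonneg fun ρ => prob0 _
  -- the two averages are close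
  have h1 : |Y - U| ≤ k * k * ε := by
    have y1 : Y = ∑ ω, pr ω * ev (fun Z : Fin k ⊕ Fin k → Fin N → ZMod q =>
        ev (fun ρ : Fin k × Fin k → Inp N (ZMod q) =>
          if A.accept ω (A.last ω (parts e (plant T lf rf Z ρ))) then (1 : ℝ) else 0)) := by
      rw [hY]
      unfold Protocol.prob
      simp only [ev_sum, ev_mul]
    have u1 : U = ∑ ω, pr ω * ev (fun ρ : Fin k × Fin k → Inp N (ZMod q) =>
          if A.accept ω (A.last ω (parts e ρ)) then (1 : ℝ) else 0) := by
      rw [hU]
      unfold Protocol.prob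
      simp only [ev_sum, ev_mul]
    rw [y1, u1, ← sum_sub_distrib]
    calc |∑ ω, (pr ω * ev (fun Z : Fin k ⊕ Fin k → Fin N → ZMod q =>
        ev (fun ρ : Fin k × Fin k → Inp N (ZMod q) =>
          if A.accept ω (A.last ω (parts e (plant T lf rf Z ρ))) then (1 : ℝ) else 0)) -
        pr ω * ev (fun ρ : Fin k × Fin k → Inp N (ZMod q) =>
          if A.accept ω (A.last ω (parts e ρ)) then (1 : ℝ) else 0))|
        ≤ ∑ ω, pr ω * (k * k * ε) := by
          refine (abs_sum_le_sum_abs _ _).trans (sum_le_sum fun ω _ => ?_)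
          rw [← mul_sub, abs_mul, abs_of_nonneg (pr0 ω)]
          refine mul_le_mul_of_nonneg_left ?_ (pr0 ω)
          simp only [last_eq]
          have hb' : 4 * (T * ((Fintype.card (ZMod q) : ℝ) ^ 2 *
              Pool.Agent.V7H89.SX.Bc N (Fintype.card (ZMod q)) (Real.log (Fintype.card M)) /
              ((N : ℝ) - T) ^ 2)) ≤ ε ^ 2 := by
            rw [ZMod.card]
            exact hb
          have h := Pool.Agent.V7H89.SX.hybrid (fun p s z => enc e A ω p s z) (A.start ω) lf rf
            (fun p => by unfold lf rf; simp) T hT ε hε hb' (order k) (order_nodup k)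
            (fun s => if A.accept ω s then (1 : ℝ) else 0) (fun s => by split_ifs <;> norm_num)
            (fun s => by split_ifs <;> norm_num)
          rw [order_length] at h
          push_cast at h
          exact h
      _ = k * k * ε := by rw [← sum_mul, pr1, one_mul]
  -- no instances
  have h2 : ∀ ρ : Fin k × Fin k → Inp N (ZMod q), A.prob pr (parts e ρ) ≤ Y - γ + (1 + γ) *
      (if ∃ S : Finset V, S.card = 2 * (k * N) ∧ η * k ^ 2 * N < inn e ρ S then (1 : ℝ) else 0) := by
    intro ρ
    split_ifs with hb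
    · have := prob1 (parts e ρ)
      linarith
    · have hn := no_unif e hk hN η ρ hb
      have h3 : ∀ (Z : Fin k ⊕ Fin k → Fin N → ZMod q) (ρ' : Fin k × Fin k → Inp N (ZMod q)),
          A.prob pr (parts e ρ) + γ ≤ A.prob pr (parts e (plant T lf rf Z ρ')) := fun Z ρ' =>
        hA _ _ _ _ (splits_parts e _) (splits_parts e ρ) (yes_plant e hk hN η T hT.le hη Z ρ') hn
      have h4 : A.prob pr (parts e ρ) + γ ≤ Y := by
        have h5 : ∀ Z : Fin k ⊕ Fin k → Fin N → ZMod q, A.prob pr (parts e ρ) + γ ≤
            ev (fun ρ' : Fin k × Fin k → Inp N (ZMod q) =>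
              A.prob pr (parts e (plant T lf rf Z ρ'))) := by
          intro Z
          have := ev_mono (h3 Z)
          rwa [ev_const] at this
        have := ev_mono h5
        rwa [ev_const] at this
      rw [mul_zero, add_zero]
      linarith
  have h3 : U ≤ Y - γ + (1 + γ) * β := by
    calc U ≤ ev (fun ρ : Fin k × Fin k → Inp N (ZMod q) => Y - γ + (1 + γ) *
        (if ∃ S : Finset V, S.card = 2 * (k * N) ∧ η * k ^ 2 * N < inn e ρ S then (1 : ℝ) else 0)) :=
          ev_mono h2
      _ = Y - γ + (1 + γ) * ev (fun ρ : Fin k × Fin k → Inp N (ZMod q) =>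
          if ∃ S : Finset V, S.card = 2 * (k * N) ∧ η * k ^ 2 * N < inn e ρ S then (1 : ℝ) else 0) := by
          rw [Pool.Agent.V7H89.SX.ev_add, ev_const, ev_mul]
      _ ≤ _ := by
          have := mul_le_mul_of_nonneg_left hbad (by linarith : 0 ≤ 1 + γ)
          linarith
  have := (abs_le.1 h1).2
  linarith

end main

/-- **Small-set expansion needs `c √n` bits in the one-way communication model and in the streaming
model.** Let `η < 1/2`, `δ = 1/q` with `q ≥ 16/η`, let `k ≥ 4 q (2 q + 1) / η` be the degree, and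
let `γ > 0`. There are `c > 0` and `n₀` such that for all `n ≥ n₀` which are divisible by `2 k q`:
if the edges of `k`-regular graphs with `n` vertices are distributed among `k²` players, then a
one-way protocol with messages of `m` bits which separates the yes instances of `SSE(η, δ)` from the
no instances with advantage `γ` has `m ≥ c √n`. The same bound holds for the memory of one-pass
streaming algorithms. -/
theorem result (η : ℝ) (hη : 0 < η) (hη2 : η < 1 / 2) (q k : ℕ) (hq : 16 / η ≤ q)
    (hk : 4 * q * (2 * q + 1) / η ≤ k) (γ : ℝ) (hγ : 0 < γ) :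
    ∃ c : ℝ, 0 < c ∧ ∃ n₀ : ℕ, ∀ (V : Type) [Fintype V], n₀ ≤ Fintype.card V →
      2 * k * q ∣ Fintype.card V →
      ∀ (m : ℕ) (M Ω : Type) [Fintype M] [Fintype Ω] (pr : Ω → ℝ), Fintype.card M ≤ 2 ^ m →
        (∀ ω, 0 ≤ pr ω) → ∑ ω, pr ω = 1 →
        (∀ A : Protocol V (k * k) M Ω, A.Separates pr η (1 / q) k γ →
          c * √(Fintype.card V) ≤ m) ∧
        (∀ A : Streaming V M Ω, A.Separates pr η (1 / q) k γ →
          c * √(Fintype.card V) ≤ m) := by
  have hq0 : (0 : ℝ) < q := lt_of_lt_of_le (by positivity) hq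
  have hk0 : (0 : ℝ) < k := lt_of_lt_of_le (by positivity) hk
  have hq1 : 1 ≤ q := by
    have : 0 < q := by exact_mod_cast hq0
    omega
  have hk1 : 1 ≤ k := by
    have : 0 < k := by exact_mod_cast hk0
    omega
  have : NeZero q := ⟨by omega⟩
  set ε : ℝ := γ / (4 * (k * k)) with hε
  have hε0 : 0 < ε := by positivity
  set c : ℝ := ε * η / (200 * k * q ^ 2) with hc
  have hc0 : 0 < c := by positivity
  set β : ℝ := γ / (4 * (1 + γ)) with hβ
  have hβ0 : 0 < β := by positivity
  have E1 := Pool.Agent.V7H89.SX.ev_small (1024 * (q : ℝ) ^ 2 / η ^ 2) (ε ^ 2 / 2) (by positivity) q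
  obtain ⟨N1, hN1⟩ := Filter.eventually_atTop.1 E1
  obtain ⟨N2, hN2⟩ := exists_nat_ge (2 / η)
  obtain ⟨N3, hN3⟩ := exists_nat_ge (2 * (2 * q + 1) * k - Real.log β)
  set N0 : ℕ := max (max N1 N2) (max N3 2) with hN0
  have main : ∀ (V : Type) [Fintype V], 2 * k * q * N0 ≤ Fintype.card V →
      2 * k * q ∣ Fintype.card V →
      ∀ (m : ℕ) (M Ω : Type) [Fintype M] [Fintype Ω] (pr : Ω → ℝ), Fintype.card M ≤ 2 ^ m →
        (∀ ω, 0 ≤ pr ω) → ∑ ω, pr ω = 1 →
        (∀ A : Protocol V (k * k) M Ω, A.Separates pr η (1 / q) k γ →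
          c * √(Fintype.card V) ≤ m) := by
    intro V _ hn hdvd m M Ω _ _ pr hM pr0 pr1 A hA
    obtain ⟨N, hN⟩ := hdvd
    rw [hN] at hn
    have hkq : 0 < 2 * k * q := by positivity
    have hNN : N0 ≤ N := Nat.le_of_mul_le_mul_left hn hkq
    have n1 : N1 ≤ N := le_trans (le_trans (le_max_left _ _) (le_max_left _ _)) hNN
    have n2 : N2 ≤ N := le_trans (le_trans (le_max_right _ _) (le_max_left _ _)) hNN
    have n3 : N3 ≤ N := le_trans (le_trans (le_max_left _ _) (le_max_right _ _)) hNN
    have n4 : 2 ≤ N := le_trans (le_trans (le_max_right _ _) (le_max_right _ _)) hNN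
    have hNpos : 0 < N := by omega
    have hNr : (0 : ℝ) < N := by exact_mod_cast hNpos
    by_contra hlt
    rw [not_le] at hlt
    have hcard : Fintype.card (W k N (ZMod q)) = Fintype.card V := by
      rw [hN]
      simp only [Fintype.card_sum, Fintype.card_prod, Fintype.card_fin, ZMod.card]
      ring
    set e : W k N (ZMod q) ≃ V := Fintype.equivOfCardEq hcard with he
    rw [card_V e] at hlt
    set f : ℕ := ⌊η * N⌋₊ with hf
    have f1 : (f : ℝ) ≤ η * N := Nat.floor_le (by positivity)
    have f2 : η * N < f + 1 := Nat.lt_floor_add_one _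
    have hηN : 2 ≤ η * N := by
      have h1 : 2 / η ≤ N := hN2.trans (by exact_mod_cast n2)
      rw [div_le_iff₀ hη] at h1
      linarith
    have f3 : 1 ≤ f := by
      have : (0 : ℝ) < f := by linarith
      have : 0 < f := by exact_mod_cast this
      omega
    have f4 : f ≤ N := by
      have : (f : ℝ) ≤ N := by nlinarith
      exact_mod_cast this
    set T : ℕ := N - f with hT
    have hTN : T < N := by omega
    have hTr : (N : ℝ) - T = f := by
      rw [hT, Nat.cast_sub f4]; ring
    have hcardM : 0 < Fintype.card M := by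
      have : Nonempty Ω := by
        by_contra h
        rw [not_nonempty_iff] at h
        simp at pr1
      exact Fintype.card_pos_iff.2 ⟨A.start (Classical.arbitrary Ω)⟩
    have hS0 : 0 ≤ Real.log (Fintype.card M) := Real.log_natCast_nonneg _
    have hS1 : Real.log (Fintype.card M) ≤ m := by
      calc Real.log (Fintype.card M) ≤ Real.log ((2 : ℝ) ^ m) := by
            refine Real.log_le_log (by exact_mod_cast hcardM) (by exact_mod_cast hM)
        _ = m * Real.log 2 := by rw [Real.log_pow]
        _ ≤ m * 1 := by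
            refine mul_le_mul_of_nonneg_left ?_ (Nat.cast_nonneg _)
            have := Real.log_two_lt_d9
            linarith
        _ = m := mul_one _
    have hb := Pool.Agent.V7H89.SX.eps_ok (c := c) (q := q) (k := k) (N := N) (T := T) (m := m)
      hη hq1 hk1 hε0 hTN.le hNpos (by rw [hTr]; linarith) hc (Real.log (Fintype.card M)) hS0 hS1
      hlt (hN1 N n1)
    have hbad : ev (fun ρ : Fin k × Fin k → Inp N (ZMod q) =>
        if ∃ S : Finset V, S.card = 2 * (k * N) ∧ η * k ^ 2 * N < inn e ρ S then (1 : ℝ) else 0) ≤ β := by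
      refine (Pool.Agent.V7H89.SX.bad_prob e hNpos (η * k ^ 2 * N)).trans ?_
      rw [ZMod.card]
      have h1 := Pool.Agent.V7H89.SX.bad_small hη hq hk n4
      have h2 : (N3 : ℝ) ≤ N := by exact_mod_cast n3
      have h3 : (1 : ℝ) ≤ k := by exact_mod_cast hk1
      have h4 : (N : ℝ) ≤ k * N := by nlinarith
      calc Real.exp _ ≤ Real.exp (Real.log β) := by
            apply Real.exp_le_exp.2
            refine h1.trans ?_
            linarith
        _ = β := Real.exp_log hβ0
    have hfin := core e hk1 hNpos η T hTN (by rw [hTr]; exact f1) ε γ β hε0.le hγ.le hb hbad pr pr0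
      pr1 A hA
    have e1 : (k : ℝ) * k * ε = γ / 4 := by
      rw [hε]; field_simp
    have e2 : (1 + γ) * β = γ / 4 := by
      rw [hβ]; field_simp
    rw [e1, e2] at hfin
    linarith
  refine ⟨c, hc0, 2 * k * q * N0, ?_⟩
  intro V _ hn hdvd m M Ω _ _ pr hM pr0 pr1
  refine ⟨main V hn hdvd m M Ω pr hM pr0 pr1, fun A hA => ?_⟩
  exact main V hn hdvd m M Ω pr hM pr0 pr1 (toProtocol A (k * k))
    (separates_toProtocol A (k * k) pr η (1 / q) k γ hA)

end Pool.Agent.Results.MP_8d8c46_lc.StreamingH89
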