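import Pool.Agent.V7H15.SSE.Final

set_option autoImplicit false

/-!
# Reductions to small-set expansion: the product of travel time and space is of order `n^2`

The definitions used in the statement are in `Pool/Agent/V7H15/SSE/Machine.lean` (`Item`, `Machine`,
`Config`, `Rec`, `Step`, `Run`, `initial`, `moves`, `Prints`), `Pool/Agent/V7H15/SSE/Graph.lean`
(`cut`, `Describes`, `Yes`, `No`) and `Pool/Agent/V7H15/SSE/Core.lean` (`Repeats`).

`Repeats` is an easy language: some pieces of the input, at given places, have to be equal. For
every `ε` and `η` with `ε + η < 1`, every many-one reduction from `Repeats` to the gap version of
small-set expansion (expansion at most `ε` against at least `1 - η`, for sets of any prescribed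
relative size `δ`) which is computed by machines with one tape whose head moves `T` times and which
have `S` bits of memory besides the tape, and which prints graphs with at most `2^(c n)` vertices,
has `T S ≥ c n^2`. The steps in which the head does not move are not counted, so the printed graphs
may be much larger than `T`. So, for every `η < 1 / 2` and every `δ`, the problem `SSE(η, δ)` is not
`NP`-hard under polynomial-time reductions with `T S = o(n^2)`. In particular this excludes
reductions by machines which read the input `p` times from left to right, with `o(n / p)` bits of
memory (for `p = 1` and logarithmic memory these are the one-way logarithmic-space reductions), and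
reductions by machines with a read-only two-way input tape and `S` bits of memory whose input head
makes `o(n^2 / S)` moves, while textbook reductions, such as the one from a language in
nondeterministic quasilinear time to satisfiability, are of this kind.

Idea of the proof. For one common shift, the crossing sequences at the borders of all pieces are
short. One of the `k` pieces prints at most the fraction `1 / k` of the edges inside the set of
small expansion. If the crossing sequences of two inputs agree, this piece can be replaced by the
one of the other input. Now the pieces are not equal any longer, but only the fraction `1 / k` of
the edges inside of the set has been lost, and this is a contradiction for large `k`.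
-/

namespace Pool.Agent.Results.MP_8d8c46_lc.TimeSpaceReductionsH15

open Pool.Agent.V7H15.SSE

/-- Let `ε + η < 1`. There are `c > 0` and `N₀` such that the following holds for all `n ≥ N₀`, all
real `δ` and all nondeterministic one-tape machines `M` with at most `2 ^ S` states, `S ≥ 1`, whose
program may depend on `n` and on the position of the head. Suppose that on every input in `Repeats`
of length `n` some run in which the head moves at most `T` times (with any number of further steps)
ends in a halting state and prints a graph, with at most `2 ^ (c n)` vertices, in which some set of
relative size `δ` has expansion at most `ε`, and that on every other input of length `n` all runs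
which end in a halting state print a graph in which all sets of relative size `δ` have expansion at
least `1 - η`. Then `T S ≥ c n^2`. -/
theorem result (ε η : ℝ) (h : ε + η < 1) :
    ∃ c : ℝ, 0 < c ∧ ∃ N₀ : ℕ, ∀ n ≥ N₀, ∀ (M : Machine) (S T : ℕ) (δ : ℝ),
      Finite M.Q → 1 ≤ S → Nat.card M.Q ≤ 2 ^ S →
      (∀ x : List Bool, x.length = n → x ∈ Repeats →
        ∃ T' ≤ T, ∃ O, Prints M x T' O ∧ Yes ε δ O ∧
          ∀ v d, Item.size v d ∈ O → (v : ℝ) ≤ (2 : ℝ) ^ (c * n)) →
      (∀ x : List Bool, x.length = n → x ∉ Repeats →
        ∀ T' O, Prints M x T' O → No η δ O) →
      c * (n : ℝ) ^ 2 ≤ (T : ℝ) * S :=
  main ε η h

end Pool.Agent.Results.MP_8d8c46_lc.TimeSpaceReductionsH15
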